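import Mathlib

set_option autoImplicit false

namespace Pool.Agent.H.MP_754066_an
open Set Filter Topology Finset

noncomputable def chi (u : ℝ) : ℝ := Real.smoothTransition (2 - 2 * u)

lemma chi_lo {u : ℝ} (h : u ≤ 1 / 2) : chi u = 1 :=
  Real.smoothTransition.one_of_one_le (by linarith)

lemma chi_hi {u : ℝ} (h : 1 ≤ u) : chi u = 0 :=
  Real.smoothTransition.zero_of_nonpos (by linarith)

lemma chi_abs (u : ℝ) : |chi u| ≤ 1 :=
  abs_le.2 ⟨by linarith [Real.smoothTransition.nonneg (2 - 2 * u), chi.eq_1 u],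
    Real.smoothTransition.le_one _⟩

lemma chi_cd : ContDiff ℝ 1 chi :=
  Real.smoothTransition.contDiff.comp (contDiff_const.sub (contDiff_const.mul contDiff_id))

noncomputable def cl (r s : ℝ) : ℝ := max (r / 2) (min s r)

lemma chi_lip : ∃ L : ℝ, 0 ≤ L ∧ ∀ r s s' : ℝ, 0 < r → s ≤ s' →
    |chi (s / r) - chi (s' / r)| ≤ L * (cl r s' - cl r s) / r := by
  obtain ⟨L, hL⟩ := chi_cd.locallyLipschitz.locallyLipschitzOn.exists_lipschitzOnWith_of_compact
    (isCompact_Icc (a := (0 : ℝ)) (b := 1))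
  refine ⟨L, L.2, fun r s s' hr h => ?_⟩
  have e : ∀ s, chi (s / r) = chi (cl r s / r) := fun s => by
    unfold cl
    rcases le_total s r with h1 | h1
    · rw [min_eq_left h1]
      rcases le_total (r / 2) s with h2 | h2
      · rw [max_eq_right h2]
      · rw [max_eq_left h2, chi_lo (by rw [div_le_iff₀ hr]; linarith),
          chi_lo (by rw [div_le_iff₀ hr]; linarith)]
    · rw [min_eq_right h1, max_eq_right (by linarith), chi_hi ((one_le_div hr).2 h1),
        chi_hi ((one_le_div hr).2 le_rfl)]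
  have m : ∀ s, cl r s / r ∈ Set.Icc (0 : ℝ) 1 := fun s =>
    ⟨div_nonneg (le_max_of_le_left (by linarith)) hr.le,
      (div_le_one hr).2 (max_le (by linarith) (min_le_right _ _))⟩
  have mo : cl r s ≤ cl r s' := max_le_max le_rfl (min_le_min h le_rfl)
  have := hL.dist_le_mul _ (m s) _ (m s')
  rw [Real.dist_eq, Real.dist_eq, ← e, ← e, ← sub_div, abs_div, abs_of_pos hr,
    abs_sub_comm (cl r s), abs_of_nonneg (sub_nonneg.2 mo)] at this
  rwa [mul_div_assoc]

lemma cl_sum {r : ℕ → ℝ} (hr : ∀ n, 0 < r n) (h2 : ∀ n, r (n + 1) ≤ r n / 2) {s s' : ℝ}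
    (h : s ≤ s') (N : ℕ) : ∑ n ∈ range N, (cl (r n) s' - cl (r n) s) ≤ s' - s := by
  have k : ∀ N, ∑ n ∈ range (N + 1), (cl (r n) s' - cl (r n) s) ≤
      max s' (r N / 2) - max s (r N / 2) := fun N => by
    induction N with
    | zero =>
      have := hr 0
      simp only [zero_add, range_one, sum_singleton, cl, max_def, min_def]
      split_ifs <;> linarith
    | succ N ih =>
      rw [sum_range_succ]
      refine (add_le_add ih le_rfl).trans ?_
      have := hr (N + 1)
      have := h2 N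
      simp only [cl, max_def, min_def]
      split_ifs <;> linarith
  rcases N with _ | N
  · simpa using h
  refine (k N).trans ?_
  simp only [max_def]
  split_ifs <;> linarith

variable {B : Type} [NormedAddCommGroup B] [NormedSpace ℂ B] [CompleteSpace B]

noncomputable def Gam (r : ℕ → ℝ) (v : ℕ → B) (s : ℝ) : B := ∑' n, (chi (s / r n) : ℂ) • v n

variable {r ε : ℕ → ℝ} {v : ℕ → B}

lemma Gam_sum (hv : Summable fun n => ‖v n‖) (s : ℝ) :
    Summable fun n => (chi (s / r n) : ℂ) • v n :=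
  .of_norm_bounded hv fun n => by
    rw [norm_smul, Complex.norm_real]
    exact mul_le_of_le_one_left (norm_nonneg _) (chi_abs _)

lemma Gam_lip (hr : ∀ n, 0 < r n) (h2 : ∀ n, r (n + 1) ≤ r n / 2) (hv : Summable fun n => ‖v n‖)
    (he : ∀ n, ‖v n‖ ≤ ε n * r n) : ∃ L : ℝ, 0 ≤ L ∧ ∀ (e s s' : ℝ), 0 ≤ e → s ≤ s' →
      (∀ n, r n / 2 < s' → ε n ≤ e) → ‖Gam r v s - Gam r v s'‖ ≤ L * e * (s' - s) := by
  obtain ⟨L, L0, hL⟩ := chi_lip
  refine ⟨L, L0, fun e s s' e0 h hε => ?_⟩
  refine le_of_tendsto' ((Gam_sum hv s).hasSum.sub (Gam_sum hv s').hasSum).tendsto_sum_nat.norm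
    fun N => le_trans (norm_sum_le_of_le _ fun n _ => ?_)
      ((mul_sum _ _ _).ge.trans (mul_le_mul_of_nonneg_left (cl_sum hr h2 h N) (by positivity)))
  rw [← sub_smul, norm_smul, ← Complex.ofReal_sub, Complex.norm_real, Real.norm_eq_abs]
  have := hr n
  by_cases hn : r n / 2 < s'
  · have mo : 0 ≤ cl (r n) s' - cl (r n) s := sub_nonneg.2 (max_le_max le_rfl (min_le_min h le_rfl))
    calc _ ≤ L * (cl (r n) s' - cl (r n) s) / r n * (e * r n) :=
          mul_le_mul (hL _ _ _ this h) ((he n).trans (by gcongr; exact hε n hn)) (norm_nonneg _)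
            (by positivity)
      _ = _ := by field_simp
  · push Not at hn
    rw [chi_lo (by rw [div_le_iff₀ this]; linarith), chi_lo (by rw [div_le_iff₀ this]; linarith),
      cl, cl, max_eq_left (min_le_of_left_le hn), max_eq_left (min_le_of_left_le (h.trans hn))]
    simp

lemma r_anti (hr : ∀ n, 0 < r n) (h2 : ∀ n, r (n + 1) ≤ r n / 2) : Antitone r :=
  antitone_nat_of_succ_le fun n => by linarith [hr n, h2 n]

omit [CompleteSpace B] in
lemma Gam_diff (hr : ∀ n, 0 < r n) (h0 : Tendsto r atTop (𝓝 0)) {s : ℝ} (hs : 0 < s) :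
    DifferentiableAt ℝ (Gam r v) s := by
  obtain ⟨N, hN⟩ := eventually_atTop.1 (h0.eventually (gt_mem_nhds (half_pos hs)))
  have : Gam r v =ᶠ[𝓝 s] fun s => ∑ n ∈ range N, (chi (s / r n) : ℂ) • v n := by
    filter_upwards [lt_mem_nhds (half_lt_self hs)] with t ht
    refine tsum_eq_sum fun n hn => ?_
    rw [chi_hi ((one_le_div (hr n)).2 ((hN n (by simpa using hn)).trans ht).le)]
    simp
  refine DifferentiableAt.congr_of_eventuallyEq ?_ this
  refine DifferentiableAt.fun_sum fun n _ => DifferentiableAt.smul_const ?_ _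
  exact Complex.ofRealCLM.differentiableAt.comp s
    (((chi_cd.differentiable one_ne_zero) _).comp s (differentiableAt_id.div_const _))

theorem U_good {H : Type} [NormedAddCommGroup H] [InnerProductSpace ℂ H] (a : H)
    (hr : ∀ n, 0 < r n) (h2 : ∀ n, r (n + 1) ≤ r n / 2) (h0 : Tendsto r atTop (𝓝 0))
    (hv : Summable fun n => ‖v n‖) (he : ∀ n, ‖v n‖ ≤ ε n * r n) (hε : Tendsto ε atTop (𝓝 0)) :
    (∃ M : ℝ, ∀ x y, ‖Gam r v ‖x - a‖ - Gam r v ‖y - a‖‖ ≤ M * ‖x - y‖) ∧
      Differentiable ℝ fun x => Gam r v ‖x - a‖ := by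
  obtain ⟨L, L0, hL⟩ := Gam_lip hr h2 hv he
  obtain ⟨e, he'⟩ := hε.bddAbove_range
  have k : ∀ x y : H, ‖x - a‖ ≤ ‖y - a‖ →
      ‖Gam r v ‖x - a‖ - Gam r v ‖y - a‖‖ ≤ L * max e 0 * ‖y - x‖ := fun x y h =>
    (hL _ _ _ (le_max_right _ _) h fun n _ => le_max_of_le_left (he' ⟨n, rfl⟩)).trans (by
      gcongr; simpa using norm_sub_norm_le (y - a) (x - a))
  refine ⟨⟨L * max e 0, fun x y => ?_⟩, fun x => ?_⟩
  · rcases le_total ‖x - a‖ ‖y - a‖ with h | h
    · rw [norm_sub_rev x y]; exact k x y h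
    · rw [norm_sub_rev]; exact k y x h
  rcases eq_or_ne x a with rfl | hx
  · refine (HasFDerivAt.of_isLittleO (f' := 0) (Asymptotics.isLittleO_iff.2 fun c hc => ?_)
      ).differentiableAt
    obtain ⟨N, hN⟩ := eventually_atTop.1 (hε.eventually (gt_mem_nhds (div_pos hc (by
      positivity : 0 < L + 1))))
    filter_upwards [Metric.ball_mem_nhds x (half_pos (hr N))] with y hy
    rw [mem_ball_iff_norm] at hy
    have := hL (c / (L + 1)) 0 ‖y - x‖ (by positivity) (norm_nonneg _) fun n hn =>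
      (hN n (le_of_not_gt fun h => by linarith [r_anti hr h2 h.le])).le
    simp only [sub_self, norm_zero, _root_.zero_apply, sub_zero] at this ⊢
    rw [norm_sub_rev]
    refine this.trans (by gcongr; rw [← mul_div_assoc, div_le_iff₀ (by positivity)]; nlinarith)
  · exact (Gam_diff (v := v) hr h0 (norm_pos_iff.2 (sub_ne_zero.2 hx))).comp x
      ((differentiableAt_id.sub_const a).norm ℂ (sub_ne_zero.2 hx))

end Pool.Agent.H.MP_754066_an
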