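import Pool.Agent.H.MP_754066_an.A

set_option autoImplicit false

namespace Pool.Agent.H.MP_754066_an
open Set Filter Topology Finset Complex
open scoped ENNReal

section
variable {A0 A1 B0 B1 : Type} [NormedAddCommGroup A0] [NormedSpace ℂ A0] [NormedAddCommGroup A1]
  [NormedSpace ℂ A1] [NormedAddCommGroup B0] [NormedSpace ℂ B0] [NormedAddCommGroup B1]
  [NormedSpace ℂ B1]

def Mem (i : A1 →L[ℂ] A0) (θ : ℝ) (a : A0) : Prop :=
  ∃ (f : ℂ → A0) (g : ℝ → A1), DiffContOnCl ℂ f (re ⁻¹' Set.Ioo 0 1) ∧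
    (∃ C, ∀ z, z.re ∈ Set.Icc (0 : ℝ) 1 → ‖f z‖ ≤ C) ∧ Continuous g ∧
    (∀ t : ℝ, f (1 + t * I) = i (g t)) ∧ Tendsto (fun t : ℝ => f (t * I)) (cocompact ℝ) (𝓝 0) ∧
    Tendsto g (cocompact ℝ) (𝓝 0) ∧ f θ = a

def Fails (i : A1 →L[ℂ] A0) (j : B1 →L[ℂ] B0) (θ : ℝ) : Prop :=
  ∃ (U : A0 → B0) (M0 M1 : ℝ), (∀ a b, ‖U a - U b‖ ≤ M0 * ‖a - b‖) ∧
    (∀ a, ∃ b, U (i a) = j b ∧ ‖b‖ ≤ M1 * ‖a‖) ∧ Differentiable ℝ U ∧
    ∃ a, Mem i θ a ∧ ¬ Mem j θ (U a)
end

noncomputable abbrev Lp (p : ℝ≥0∞) := lp (fun _ : ℕ => ℂ) p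

noncomputable def mu {p : ℝ≥0∞} [Fact (1 ≤ p)] (w : ℕ → ℂ) (hw : ∀ n, ‖w n‖ ≤ 1) :
    Lp p →L[ℂ] Lp p :=
  LinearMap.mkContinuous
    { toFun := fun x => ⟨fun n => w n * x n, (lp.memℓp x).mono' fun n => by
        rw [norm_mul]; exact mul_le_of_le_one_left (norm_nonneg _) (hw n)⟩
      map_add' := fun x y => lp.ext (funext fun n => mul_add _ _ _)
      map_smul' := fun c x => lp.ext (funext fun n => mul_left_comm _ _ _) } 1 fun x => by
    rw [one_mul]
    exact lp.norm_mono (zero_lt_one.trans_le Fact.out).ne' fun n =>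
      (norm_mul _ _).le.trans (mul_le_of_le_one_left (norm_nonneg _) (hw n))

lemma mu_apply {p : ℝ≥0∞} [Fact (1 ≤ p)] (w : ℕ → ℂ) (hw : ∀ n, ‖w n‖ ≤ 1) (x : Lp p) (n : ℕ) :
    mu w hw x n = w n * x n := rfl

noncomputable def pw (z : ℂ) (n : ℕ) : ℂ := exp (((-(Real.log 4 * n) : ℝ) : ℂ) * z)

lemma norm_pw (z : ℂ) (n : ℕ) : ‖pw z n‖ = Real.exp (-(Real.log 4 * n) * z.re) := by
  rw [pw, norm_exp, re_ofReal_mul]

lemma pw_le {z : ℂ} (h : 0 ≤ z.re) (n : ℕ) : ‖pw z n‖ ≤ 1 := by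
  rw [norm_pw, Real.exp_le_one_iff, neg_mul, neg_nonpos]
  have := Real.log_nonneg (show (1 : ℝ) ≤ 4 by norm_num)
  positivity

lemma pw_add (z w : ℂ) (n : ℕ) : pw (z + w) n = pw z n * pw w n := by
  rw [pw, mul_add, exp_add]; rfl

lemma pw_half (n : ℕ) : pw ((1 / 2 : ℝ) : ℂ) n = ((1 / 2 ^ n : ℝ) : ℂ) := by
  have : Real.log 4 = 2 * Real.log 2 := by
    rw [show (4 : ℝ) = 2 ^ 2 by norm_num, Real.log_pow]; norm_num
  have e : Real.exp (-(Real.log 4 * n) * (1 / 2)) = 1 / 2 ^ n := by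
    rw [this, show -(2 * Real.log 2 * n) * (1 / 2) = -(n * Real.log 2) by ring, Real.exp_neg,
      Real.exp_nat_mul, Real.exp_log two_pos, one_div]
  rw [← e, pw]; push_cast; rfl

lemma pw_one (n : ℕ) : pw 1 n = ((1 / 2 ^ n : ℝ) : ℂ) * ((1 / 2 ^ n : ℝ) : ℂ) := by
  rw [← pw_half, ← pw_add]; congr 1; push_cast; ring

noncomputable def Dg (p : ℝ≥0∞) [Fact (1 ≤ p)] : Lp p →L[ℂ] Lp p := mu (pw 1) (pw_le (by simp))

lemma Dg_inj (p : ℝ≥0∞) [Fact (1 ≤ p)] : Function.Injective (Dg p) := fun _ _ h =>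
  lp.ext (funext fun n => mul_left_cancel₀ (exp_ne_zero _) (congrFun (congrArg Subtype.val h) n))

open Classical in
noncomputable def hz (x : Lp 2) (z : ℂ) : Lp 2 := if h : 0 ≤ z.re then mu (pw z) (pw_le h) x else 0

lemma hz_apply (x : Lp 2) {z : ℂ} (h : 0 ≤ z.re) (n : ℕ) : hz x z n = pw z n * x n := by
  rw [hz, dif_pos h, mu_apply]

lemma hz_norm (x : Lp 2) {z : ℂ} (h : 0 ≤ z.re) : ‖hz x z‖ ≤ ‖x‖ :=
  lp.norm_mono two_ne_zero fun n => by
    rw [hz_apply x h, norm_mul]; exact mul_le_of_le_one_left (norm_nonneg _) (pw_le h n)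

lemma hz_good (x : Lp 2) : ContinuousOn (hz x) {z | 0 ≤ z.re} ∧
    DifferentiableOn ℂ (hz x) {z | 0 < z.re} := by
  let F : Finset ℕ → ℂ → Lp 2 := fun s z => ∑ n ∈ s, pw z n • lp.single 2 n (x n)
  have hF : ∀ s, Differentiable ℂ (F s) := fun s => Differentiable.fun_sum fun n _ =>
    Differentiable.smul_const (by unfold pw; fun_prop) _
  have U : TendstoUniformlyOn F (hz x) atTop {z | 0 ≤ z.re} := by
    refine Metric.tendstoUniformlyOn_iff.2 fun ε hε => ?_
    filter_upwards [Metric.tendsto_nhds.1 (lp.hasSum_single (by simp) x) ε hε] with s hs z hz'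
    rw [dist_comm, dist_eq_norm] at hs
    rw [dist_eq_norm]
    refine lt_of_le_of_lt (lp.norm_mono two_ne_zero fun n => ?_) hs
    simp only [F, lp.coeFn_sub, Pi.sub_apply, lp.coeFn_sum, Finset.sum_apply, lp.coeFn_smul,
      Pi.smul_apply, lp.single_apply, hz_apply x hz', Pi.single_apply, smul_eq_mul, mul_ite,
      mul_zero, sum_ite_eq]
    split_ifs
    · simp
    · rw [sub_zero, sub_zero, norm_mul]; exact mul_le_of_le_one_left (norm_nonneg _) (pw_le hz' n)
  exact ⟨U.continuousOn (.of_forall fun s => (hF s).continuous.continuousOn),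
    (U.mono fun z (h : 0 < z.re) => h.le).tendstoLocallyUniformlyOn.differentiableOn
      (.of_forall fun s => (hF s).differentiableOn) (isOpen_lt continuous_const continuous_re)⟩

lemma mem_a (x : Lp 2) : Mem (Dg 2) (1 / 2) (hz x ((1 / 2 : ℝ) : ℂ)) := by
  obtain ⟨hc, hd⟩ := hz_good x
  let E : ℂ → ℂ := fun z => exp (z ^ 2 - 1 / 4)
  have dE : Differentiable ℂ E := by unfold E; fun_prop
  have nE : ∀ z : ℂ, z.re ∈ Set.Icc (0 : ℝ) 1 → ‖E z‖ ≤ Real.exp (1 - z.im ^ 2) := fun z h => by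
    simp only [E, norm_exp, Real.exp_le_exp, sq]
    simp
    nlinarith [h.1, h.2]
  have lim : Tendsto (fun t : ℝ => Real.exp (1 - t ^ 2) * ‖x‖) (cocompact ℝ) (𝓝 0) := by
    have : Tendsto (fun t : ℝ => t ^ 2) (cocompact ℝ) atTop := by
      simpa [Function.comp_def] using (tendsto_pow_atTop two_ne_zero).comp
        (tendsto_norm_cocompact_atTop (E := ℝ))
    simpa [sub_eq_add_neg, -cocompact_eq_atBot_atTop] using (Real.tendsto_exp_atBot.comp (tendsto_atBot_add_const_left _ 1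
      (tendsto_neg_atTop_atBot.comp this))).mul_const ‖x‖
  have bd : ∀ z w : ℂ, z.re ∈ Set.Icc (0 : ℝ) 1 → 0 ≤ w.re →
      ‖E z • hz x w‖ ≤ Real.exp (1 - z.im ^ 2) * ‖x‖ := fun z w h h' => by
    rw [norm_smul]; exact mul_le_mul (nE z h) (hz_norm x h') (norm_nonneg _) (Real.exp_pos _).le
  refine ⟨fun z => E z • hz x z, fun t => E (1 + t * I) • hz x (t * I),
    ⟨dE.differentiableOn.smul (hd.mono fun z h => h.1), dE.continuous.continuousOn.smul
      (hc.mono ?_)⟩, ⟨Real.exp 1 * ‖x‖, fun z h => (bd z z h h.1).trans ?_⟩, ?_, fun t => ?_,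
    squeeze_zero_norm (fun t => by simpa using bd (t * I) (t * I) (by simp) (by simp)) lim,
    squeeze_zero_norm (fun t => by simpa using bd (1 + t * I) (t * I) (by simp) (by simp)) lim, ?_⟩
  · exact closure_minimal (fun z h => h.1.le) (isClosed_le continuous_const continuous_re)
  · gcongr; nlinarith [sq_nonneg z.im]
  · exact (dE.continuous.comp (by fun_prop)).smul
      (hc.comp_continuous (by fun_prop) fun t => by simp)
  · rw [map_smul]
    refine congrArg (E (1 + t * I) • ·) (lp.ext (funext fun n => ?_))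
    rw [hz_apply x (by simp), pw_add, Dg, mu_apply, hz_apply x (by simp), mul_assoc]
  · have : E ((1 / 2 : ℝ) : ℂ) = 1 := by simp only [E]; push_cast; norm_num
    simp only [this, one_smul]

lemma l1_sum (y : Lp 1) (N : ℕ) : ∑ n ∈ range N, ‖y n‖ ≤ ‖y‖ := by
  simpa using lp.sum_rpow_le_norm_rpow (by simp) y (range N)

lemma not_mem (b : Lp 1) (h : Mem (Dg 1) (1 / 2) b) :
    ∃ C, ∀ N, ‖∑ n ∈ range N, 2 ^ n * b n‖ ≤ C := by
  obtain ⟨f, g, hd, ⟨C, hC⟩, hg, h1, -, h2, rfl⟩ := h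
  obtain ⟨C', hC'⟩ := ((h2.isCompact_insert_range_of_cocompact hg).isBounded.subset
    (Set.subset_insert _ _)).exists_norm_le
  refine ⟨max C C', fun N => ?_⟩
  have C0 : 0 ≤ C := (norm_nonneg _).trans (hC 0 (by simp))
  let F : ℂ → ℂ := fun z => ∑ n ∈ range N, pw (-z) n * f z n
  have hF : DiffContOnCl ℂ F (re ⁻¹' Set.Ioo 0 1) := by
    have e : ∀ n, DiffContOnCl ℂ (fun z => f z n) (re ⁻¹' Set.Ioo 0 1) := fun n =>
      (lp.evalCLM ℂ (fun _ : ℕ => ℂ) 1 n).differentiable.comp_diffContOnCl hd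
    have p : ∀ n, Differentiable ℂ fun z => pw (-z) n := fun n => by unfold pw; fun_prop
    exact ⟨DifferentiableOn.fun_sum fun n _ => (p n).differentiableOn.mul (e n).1,
      continuousOn_finset_sum _ fun n _ => (p n).continuous.continuousOn.mul (e n).2⟩
  have := HadamardThreeLines.norm_le_interp_of_mem_verticalClosedStrip' (f := F)
    (z := ((1 / 2 : ℝ) : ℂ)) (a := max C C') (b := max C C') zero_lt_one
    ⟨by norm_num, by norm_num⟩ hF ⟨∑ n ∈ range N, Real.exp (Real.log 4 * n) * C, by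
      rintro _ ⟨z, hz, rfl⟩
      refine norm_sum_le_of_le _ fun n _ => ?_
      rw [norm_mul, norm_pw]
      have := Real.log_nonneg (show (1 : ℝ) ≤ 4 by norm_num)
      refine mul_le_mul (Real.exp_le_exp.2 ?_)
        ((lp.norm_apply_le_norm one_ne_zero _ n).trans (hC z hz)) (norm_nonneg _) (Real.exp_pos _).le
      rw [neg_re, neg_mul_neg]; exact mul_le_of_le_one_right (by positivity) hz.2⟩
    (fun z (hz : z.re = 0) => by
      refine (norm_sum_le_of_le _ fun n _ => ?_).trans ((l1_sum (f z) N).trans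
        ((hC z (by simp [hz])).trans (le_max_left _ _)))
      rw [norm_mul]; exact mul_le_of_le_one_left (norm_nonneg _) (pw_le (by simp [hz]) n))
    (fun z (hz : z.re = 1) => by
      have e : z = 1 + z.im * I := by apply Complex.ext <;> simp [hz]
      refine (norm_sum_le_of_le _ fun n _ => ?_).trans ((l1_sum (g z.im) N).trans
        ((hC' _ ⟨_, rfl⟩).trans (le_max_right _ _)))
      conv_lhs => enter [1, 2]; rw [e, h1]
      rw [Dg, mu_apply, ← mul_assoc, ← pw_add, norm_mul]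
      exact mul_le_of_le_one_left (norm_nonneg _) (pw_le (by simp [hz]) n))
  rw [← Real.rpow_add' (le_max_of_le_left C0) (by simp), sub_add_cancel, Real.rpow_one] at this
  refine le_trans (le_of_eq (congrArg _ (sum_congr rfl fun n _ => ?_))) this
  congr 1
  have := pw_add (-((1 / 2 : ℝ) : ℂ)) ((1 / 2 : ℝ) : ℂ) n
  rw [neg_add_cancel, pw_half, pw, mul_zero, exp_zero] at this
  push_cast at this ⊢
  field_simp at this
  exact this

theorem main : ∃ (i : Lp 2 →L[ℂ] Lp 2) (j : Lp 1 →L[ℂ] Lp 1), Function.Injective i ∧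
    Function.Injective j ∧ Fails i j (1 / 2) := by
  obtain ⟨α, hα⟩ : ∃ α : ℕ → ℝ, α = fun n : ℕ => ((n : ℝ) + 2) ^ (-(3 / 4) : ℝ) := ⟨_, rfl⟩
  have α0 : ∀ n, 0 < α n := fun n => by rw [hα]; positivity
  have αa : ∀ n, α (n + 1) ≤ α n := fun n => by
    rw [hα]; exact Real.rpow_le_rpow_of_nonpos (by positivity) (by simp) (by norm_num)
  have αb : ∀ n : ℕ, 1 / ((n : ℝ) + 2) = ((n : ℝ) + 2) ^ (-(1 / 4) : ℝ) * α n := fun n => by
    rw [hα, ← Real.rpow_add (by positivity)]; norm_num [Real.rpow_neg_one]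
  have αc : ∀ n : ℕ, 1 / ((n : ℝ) + 2) ≤ α n := fun n => (αb n).le.trans
    (mul_le_of_le_one_left (α0 n).le (Real.rpow_le_one_of_one_le_of_nonpos
      (by linarith [Nat.cast_nonneg (α := ℝ) n]) (by norm_num)))
  have αm : Memℓp (fun n => (α n : ℂ)) 2 := memℓp_gen (by
    have := (summable_nat_add_iff 2).2 (Real.summable_nat_rpow.2 (show -(3 / 2 : ℝ) < -1 by norm_num))
    refine this.congr fun n => ?_
    rw [norm_real, Real.norm_of_nonneg (α0 n).le, hα, ← Real.rpow_mul (by positivity)]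
    norm_num)
  let a := hz ⟨_, αm⟩ ((1 / 2 : ℝ) : ℂ)
  have ha : ∀ n, a n = ((α n / 2 ^ n : ℝ) : ℂ) := fun n => by
    rw [hz_apply _ (by simp), pw_half]; push_cast; ring
  let r : ℕ → ℝ := fun n => α n / 2 ^ n / 2
  let v : ℕ → Lp 1 := fun n => lp.single 1 n ((1 / ((n : ℝ) + 2) / 2 ^ n : ℝ) : ℂ)
  have r0 : ∀ n, 0 < r n := fun n => by have := α0 n; positivity
  have r2 : ∀ n, r (n + 1) ≤ r n / 2 := fun n => by
    simp only [r]; rw [pow_succ, ← div_div]; gcongr; exact αa n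
  have nv : ∀ n, ‖v n‖ = 1 / ((n : ℝ) + 2) / 2 ^ n := fun n => by
    rw [lp.norm_single one_pos, norm_real, Real.norm_of_nonneg (by positivity)]
  have sv : Summable fun n => ‖v n‖ := .of_nonneg_of_le (fun _ => norm_nonneg _) (fun n => by
    rw [nv, one_div_pow]; gcongr; rw [div_le_one (by positivity)]
    linarith [Nat.cast_nonneg (α := ℝ) n]) summable_geometric_two
  have rl : Tendsto r atTop (𝓝 0) := squeeze_zero (g := fun n => r 0 * (1 / 2) ^ n)
    (fun n => (r0 n).le) (fun n => by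
      induction n with
      | zero => simp
      | succ n ih => rw [pow_succ]; linarith [r2 n])
    (by simpa using (tendsto_pow_atTop_nhds_zero_of_lt_one (by norm_num)
      (show (1 / 2 : ℝ) < 1 by norm_num)).const_mul (r 0))
  obtain ⟨⟨M, hM⟩, hd⟩ := U_good (ε := fun n : ℕ => 2 * ((n : ℝ) + 2) ^ (-(1 / 4) : ℝ)) a r0 r2 rl sv
    (fun n => by rw [nv, αb]; exact le_of_eq (by simp only [r]; ring))
    (by simpa using ((tendsto_rpow_neg_atTop (show (0 : ℝ) < 1 / 4 by norm_num)).comp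
      (tendsto_atTop_add_const_right _ 2 tendsto_natCast_atTop_atTop)).const_mul 2)
  have ga : ∀ s n, Gam r v s n = ((chi (s / r n) * (1 / ((n : ℝ) + 2) / 2 ^ n) : ℝ) : ℂ) := by
    intro s n
    have := (lp.evalCLM ℂ (fun _ : ℕ => ℂ) 1 n).map_tsum (Gam_sum (r := r) sv s)
    refine this.trans ((tsum_eq_single n fun m hm => ?_).trans ?_)
    · change (chi (s / r m) : ℂ) * v m n = 0
      rw [lp.single_apply_ne _ _ _ hm.symm, mul_zero]
    · change (chi (s / r n) : ℂ) * v n n = _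
      rw [lp.single_apply_self, ofReal_mul]
  refine ⟨Dg 2, Dg 1, Dg_inj 2, Dg_inj 1, _, M, 8, hM, fun x => ?_, hd, a, mem_a _, fun h => ?_⟩
  · let y : ℕ → ℂ := fun n => ((chi (‖Dg 2 x - a‖ / r n) * (2 ^ n / ((n : ℝ) + 2)) : ℝ) : ℂ)
    have s1 : ∀ N : ℕ, ∑ n ∈ range N, 2 ^ n / ((n : ℝ) + 2) ≤ 3 * (2 ^ N / ((N : ℝ) + 2)) := by
      intro N
      induction N with
      | zero => norm_num
      | succ N ih =>
        rw [sum_range_succ]
        refine (add_le_add ih le_rfl).trans ?_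
        push_cast
        rw [← sub_nonneg]
        refine le_of_le_of_eq (b := 2 ^ N * (2 * N) / ((N + 2) * (N + 1 + 2) : ℝ))
          (by positivity) (by field_simp; ring)
    have ny : ∀ n, ‖y n‖ ≤ 2 ^ n / ((n : ℝ) + 2) := fun n => by
      rw [norm_real, norm_mul, Real.norm_of_nonneg (show 0 ≤ 2 ^ n / ((n : ℝ) + 2) by positivity)]
      exact mul_le_of_le_one_left (by positivity) (chi_abs _)
    have s2 : ∀ N : ℕ, ∑ n ∈ range N, ‖y n‖ ≤ 8 * ‖x‖ := by
      intro N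
      induction N with
      | zero => simp
      | succ N ih =>
        rcases le_or_gt (r N) ‖Dg 2 x - a‖ with h | h
        · simpa [sum_range_succ, y, chi_hi ((one_le_div (r0 N)).2 h)] using ih
        have t1 := (lp.norm_apply_le_norm two_ne_zero (Dg 2 x - a) N).trans_lt h
        have t2 := lp.norm_apply_le_norm two_ne_zero x N
        have t3 := norm_sub_norm_le (a N) (Dg 2 x N)
        rw [lp.coeFn_sub, Pi.sub_apply, norm_sub_rev] at t1
        rw [Dg, mu_apply, norm_mul, pw_one, norm_mul, norm_real, Real.norm_of_nonneg (by positivity),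
          ha, norm_real, Real.norm_of_nonneg (by have := α0 N; positivity), ← ha] at t3
        have t4 : α N / 2 ^ N / 2 ≤ 1 / 2 ^ N * (1 / 2 ^ N) * ‖x N‖ := by
          simp only [r, Dg, mu_apply, pw_one] at t1; linarith
        have t5 : 2 ^ N * α N ≤ 2 * ‖x N‖ := by
          have := mul_le_mul_of_nonneg_left t4 (show (0 : ℝ) ≤ 2 ^ N * 2 ^ N * 2 by positivity)
          refine le_of_eq_of_le (by field_simp) (this.trans (le_of_eq (by field_simp)))
        have t6 := mul_le_mul_of_nonneg_left (αc N) (show (0 : ℝ) ≤ 2 ^ N by positivity)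
        have t7 := (sum_le_sum fun n (_ : n ∈ range N) => ny n).trans (s1 N)
        have t8 := ny N
        rw [mul_one_div] at t6
        rw [sum_range_succ]; linarith
    have s3 : ∀ s : Finset ℕ, ∑ n ∈ s, ‖y n‖ ^ (1 : ℝ≥0∞).toReal ≤ 8 * ‖x‖ := fun s => by
      obtain ⟨N, hN⟩ := s.exists_nat_subset_range
      simpa using (sum_le_sum_of_subset_of_nonneg hN fun _ _ _ => norm_nonneg _).trans (s2 N)
    refine ⟨⟨y, memℓp_gen' s3⟩, lp.ext (funext fun n => ?_),
      lp.norm_le_of_forall_sum_le (by simp) (by positivity) (by simpa using s3)⟩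
    rw [ga, Dg, Dg, mu_apply (p := 1), pw_one]
    simp only [y, Dg]
    push_cast; field_simp
  · obtain ⟨C, hC⟩ := not_mem _ h
    refine Real.not_summable_one_div_natCast ((summable_nat_add_iff 2).1
      (summable_of_sum_range_le (c := C) (fun n => by positivity) fun N => ?_))
    refine le_trans (le_of_eq ?_) ((re_le_norm _).trans (hC N))
    rw [re_sum]
    refine sum_congr rfl fun n _ => ?_
    rw [ga, sub_self, norm_zero, zero_div, chi_lo (by norm_num), ← ofReal_ofNat, ← ofReal_pow,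
      ← ofReal_mul, ofReal_re]
    push_cast; field_simp

end Pool.Agent.H.MP_754066_an
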